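import Pool.Agent.Helper44.TOT.Defs

/-! TOT project, piece O3: `PerAdm` -/

set_option autoImplicit false

namespace Pool.Agent.Helper28.TOT

open Pool.Agent.Helper44.TOT

namespace Aux

lemma ez_bound (a : ℕ) (ρ ι δ z : ℝ) (ha : 2 ≤ a) (hι : ι = 1 / (a * 2 ^ (a + 3))) (hz : 1 ≤ z)
    (hδ : 0 < δ) (hδ' : δ ≤ 1 / (100 * a * (4 * z) ^ a)) :
    (1 + z ^ a) * Ez a ρ ι δ z ≤
      2 ^ (a + 2) * Real.exp (-(z ^ a)) * Real.exp (-((ρ / 2) ^ a)) := by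
  have haR : (2 : ℝ) ≤ a := by exact_mod_cast ha
  have ha0 : (0 : ℝ) < a := by linarith
  have hz0 : (0 : ℝ) < z := by linarith
  have hp2 : (0 : ℝ) < 2 ^ (a + 3) := by positivity
  have hι0 : 0 < ι := by rw [hι]; positivity
  have hp2' : (1 : ℝ) ≤ 2 ^ (a + 3) := one_le_pow₀ (by norm_num)
  have haι : (a : ℝ) * ι = 1 / 2 ^ (a + 3) := by
    rw [hι]; field_simp
  have haι1 : (a : ℝ) * ι ≤ 1 := by
    rw [haι, div_le_one hp2]; exact hp2'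
  have hι1 : ι ≤ 1 := by nlinarith
  have hza : 1 ≤ z ^ a := one_le_pow₀ hz
  have hδz : (a : ℝ) * δ * z ^ a ≤ 1 / 100 := by
    have h1 : δ * (100 * a * (4 * z) ^ a) ≤ 1 := by
      rwa [le_div_iff₀ (by positivity)] at hδ'
    have h2 : z ^ a ≤ (4 * z) ^ a := pow_le_pow_left₀ hz0.le (by linarith) a
    have h3 : (a : ℝ) * δ * z ^ a ≤ a * δ * (4 * z) ^ a :=
      mul_le_mul_of_nonneg_left h2 (by positivity)
    linarith
  have hδ1 : δ ≤ 1 := by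
    have : (1 : ℝ) * δ * 1 ≤ a * δ * z ^ a :=
      mul_le_mul (mul_le_mul_of_nonneg_right (by linarith) hδ.le) hza (by norm_num) (by positivity)
    linarith
  -- Bernoulli for `(1 - ι)^a`
  have hb1 : 1 - (a : ℝ) * ι ≤ (1 - ι) ^ a := by
    have := one_add_mul_le_pow (show (-2 : ℝ) ≤ -ι by linarith) a
    have h2 : (1 + -ι) ^ a = (1 - ι) ^ a := by ring
    rw [h2] at this
    linarith
  have hb2 : z ^ a - 1 / 100 ≤ (z - δ) ^ a := by
    have h1 := one_add_mul_le_pow (show (-2 : ℝ) ≤ -(δ / z) by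
      have : δ / z ≤ 1 := by rw [div_le_one hz0]; linarith
      linarith) a
    have h2 : z ^ a * (1 + -(δ / z)) ^ a = (z - δ) ^ a := by
      rw [← mul_pow]; congr 1; field_simp; ring
    have h3 : z ^ a * (1 + (a : ℝ) * -(δ / z)) ≤ (z - δ) ^ a := by
      rw [← h2]; exact mul_le_mul_of_nonneg_left h1 (by positivity)
    have h4 : z ^ a * ((a : ℝ) * (δ / z)) ≤ 1 / 100 := by
      have h5 : δ / z ≤ δ := div_le_self hδ.le hz
      have h6 : (a : ℝ) * (δ / z) ≤ a * δ := mul_le_mul_of_nonneg_left h5 ha0.le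
      have h7 := mul_le_mul_of_nonneg_left h6 (show 0 ≤ z ^ a by positivity)
      linarith
    nlinarith
  have hzδ : 0 ≤ z - δ := by linarith
  have hE1 : z ^ a - a * ι * z ^ a - 1 / 100 ≤ ((1 - ι) * (z - δ)) ^ a := by
    rw [mul_pow]
    have h1 : (1 - (a : ℝ) * ι) * (z ^ a - 1 / 100) ≤ (1 - ι) ^ a * (z - δ) ^ a :=
      mul_le_mul hb1 hb2 (by linarith) (pow_nonneg (by linarith) a)
    have h2 : 0 ≤ (a : ℝ) * ι := by positivity
    nlinarith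
  have hE2 : z ^ a / 2 ^ a - a * ι * z ^ a ≤ ((1 - ι) * (z / 2)) ^ a := by
    rw [mul_pow, div_pow]
    have h0 : (1 : ℝ) ≤ 2 ^ a := one_le_pow₀ (by norm_num)
    have h1 : (1 - (a : ℝ) * ι) * (z ^ a / 2 ^ a) ≤ (1 - ι) ^ a * (z ^ a / 2 ^ a) :=
      mul_le_mul_of_nonneg_right hb1 (by positivity)
    have h2 : 0 ≤ (a : ℝ) * ι := by positivity
    have h3 : z ^ a / 2 ^ a ≤ z ^ a := div_le_self (by positivity) h0
    have h4 := mul_le_mul_of_nonneg_left h3 h2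
    nlinarith
  have hpow : (2 : ℝ) ^ (a + 3) = 8 * 2 ^ a := by rw [pow_add]; ring
  have hpa : (0 : ℝ) < 2 ^ a := by positivity
  have hmain : z ^ a + z ^ a / (2 * 2 ^ a) - 1 / 100 ≤
      ((1 - ι) * (z - δ)) ^ a + ((1 - ι) * (z / 2)) ^ a := by
    have h1 : (a : ℝ) * ι * z ^ a = z ^ a / (8 * 2 ^ a) := by
      rw [haι, hpow]; ring
    rw [h1] at hE1 hE2
    have h2 : z ^ a / 2 ^ a - z ^ a / (8 * 2 ^ a) - z ^ a / (8 * 2 ^ a) =
        z ^ a / (2 * 2 ^ a) + z ^ a / (4 * 2 ^ a) := by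
      field_simp; ring
    have h3 : 0 ≤ z ^ a / (4 * 2 ^ a) := by positivity
    linarith
  have hEz : Ez a ρ ι δ z ≤ Real.exp (-(z ^ a)) * Real.exp (-(z ^ a / (2 * 2 ^ a))) *
      Real.exp (1 / 100) * Real.exp (-((ρ / 2) ^ a)) := by
    unfold Ez
    rw [← Real.exp_add, ← Real.exp_add, ← Real.exp_add]
    apply Real.exp_le_exp.2
    linarith
  have h100 : Real.exp (1 / 100) ≤ 2 := by
    have h1 : Real.exp (1 / 100) ≤ Real.exp (1 / 2) := Real.exp_le_exp.2 (by norm_num)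
    have h2 : Real.exp (1 / 2) ^ 2 = Real.exp 1 := by
      rw [← Real.exp_nat_mul]; norm_num
    have h3 := Real.exp_one_lt_d9
    have h4 := Real.exp_pos (1 / 2 : ℝ)
    nlinarith
  have hw : (1 + z ^ a) * Real.exp (-(z ^ a / (2 * 2 ^ a))) ≤ 2 * 2 ^ a := by
    have h1 : z ^ a / (2 * 2 ^ a) + 1 ≤ Real.exp (z ^ a / (2 * 2 ^ a)) := Real.add_one_le_exp _
    have h2 : 1 + z ^ a ≤ 2 * 2 ^ a * (z ^ a / (2 * 2 ^ a) + 1) := by
      have h0 : (1 : ℝ) ≤ 2 ^ a := one_le_pow₀ (by norm_num)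
      have : 2 * 2 ^ a * (z ^ a / (2 * 2 ^ a) + 1) = z ^ a + 2 * 2 ^ a := by field_simp
      rw [this]; linarith
    rw [Real.exp_neg]
    have h3 := Real.exp_pos (z ^ a / (2 * 2 ^ a))
    rw [← div_eq_mul_inv, div_le_iff₀ h3]
    exact h2.trans (mul_le_mul_of_nonneg_left h1 (by positivity))
  have e1 := Real.exp_pos (-(z ^ a))
  have e2 := Real.exp_pos (-((ρ / 2) ^ a))
  have e3 := Real.exp_pos (1 / 100 : ℝ)
  calc (1 + z ^ a) * Ez a ρ ι δ z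
      ≤ (1 + z ^ a) * (Real.exp (-(z ^ a)) * Real.exp (-(z ^ a / (2 * 2 ^ a))) *
          Real.exp (1 / 100) * Real.exp (-((ρ / 2) ^ a))) :=
        mul_le_mul_of_nonneg_left hEz (by positivity)
    _ = ((1 + z ^ a) * Real.exp (-(z ^ a / (2 * 2 ^ a)))) * Real.exp (1 / 100) *
          (Real.exp (-(z ^ a)) * Real.exp (-((ρ / 2) ^ a))) := by ring
    _ ≤ (2 * 2 ^ a) * 2 * (Real.exp (-(z ^ a)) * Real.exp (-((ρ / 2) ^ a))) := by
        refine mul_le_mul_of_nonneg_right ?_ (by positivity)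
        exact mul_le_mul hw h100 e3.le (by positivity)
    _ = _ := by ring

/-- choice of `ρ` -/
lemma exists_rho (a : ℕ) (ha : 2 ≤ a) (K : ℝ) (hK : 1 ≤ K) :
    ∃ ρ : ℝ, 2 ≤ ρ ∧ K * Real.exp (-((ρ / 2) ^ a)) ≤ 1 := by
  refine ⟨2 * max 1 (Real.log K), by nlinarith [le_max_left (1 : ℝ) (Real.log K)], ?_⟩
  have h1 : 2 * max 1 (Real.log K) / 2 = max 1 (Real.log K) := by ring
  rw [h1]
  have h2 : max 1 (Real.log K) ≤ (max 1 (Real.log K)) ^ a :=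
    le_self_pow₀ (le_max_left _ _) (by omega)
  have h3 : Real.log K ≤ (max 1 (Real.log K)) ^ a := (le_max_right _ _).trans h2
  have h4 : Real.exp (-((max 1 (Real.log K)) ^ a)) ≤ K⁻¹ := by
    have h5 : Real.exp (-((max 1 (Real.log K)) ^ a)) ≤ Real.exp (-Real.log K) :=
      Real.exp_le_exp.2 (by linarith)
    rwa [Real.exp_neg (Real.log K), Real.exp_log (by linarith)] at h5
  have := mul_le_mul_of_nonneg_left h4 (show 0 ≤ K by linarith)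
  rwa [mul_inv_cancel₀ (by linarith)] at this

/-- growth facts -/
lemma exists_large (A : ℕ) : ∃ X0 : ℕ, ∀ x : ℕ, X0 ≤ x →
    50 ≤ Real.log x ∧ 1 ≤ ll x ∧ (ll x) ^ A ≤ Real.log x / 40 := by
  have h1 : Filter.Tendsto (fun x : ℕ => Real.log (x : ℝ)) Filter.atTop Filter.atTop :=
    Real.tendsto_log_atTop.comp tendsto_natCast_atTop_atTop
  have h2 : ∀ᶠ y : ℝ in Filter.atTop, 50 ≤ y ∧ 1 ≤ Real.log y ∧ (Real.log y) ^ A ≤ y / 40 := by
    have ha := (Real.isLittleO_pow_log_id_atTop (n := A)).bound (show (0 : ℝ) < 1 / 40 by norm_num)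
    have hb := Filter.eventually_ge_atTop (50 : ℝ)
    have hc := Real.tendsto_log_atTop.eventually (Filter.eventually_ge_atTop (1 : ℝ))
    filter_upwards [ha, hb, hc] with y h3 h4 h5
    refine ⟨h4, h5, ?_⟩
    rw [Real.norm_of_nonneg (pow_nonneg (by linarith) A), id, Real.norm_of_nonneg (by linarith)] at h3
    linarith
  obtain ⟨X0, hX0⟩ := Filter.eventually_atTop.1 (h1.eventually h2)
  exact ⟨X0, fun x hx => hX0 x hx⟩

lemma arith1 {a y : ℝ} (ha : 2 ≤ a) (hy : 1 ≤ y) : 200 ≤ 100 * a * y := by nlinarith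

lemma arith2 {c y : ℝ} (hc : 1 ≤ c) (hy : 1 ≤ y) : 32 ≤ c * 2149 * y := by nlinarith

lemma arith3 {t : ℝ} (h0 : 0 < t) (h : t ≤ 1 / 2) : 2 * t ^ 4 + t ^ 2 ≤ t := by
  have g7 : t ^ 2 ≤ 1 / 4 := by nlinarith
  have g8 : t ^ 3 ≤ 1 / 8 := by nlinarith
  have g9 : 2 * t ^ 4 + t ^ 2 = t * (2 * t ^ 3 + t) := by ring
  rw [g9]
  nlinarith

/-- an integer `n ∈ S` not in the exceptional sets falls in one of the types -/
lemma card8 {S T1 T2 T3 T4 T5 T6 T7 T8 : Finset ℕ}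
    (h : ∀ n ∈ S, n ∈ T1 ∨ n ∈ T2 ∨ n ∈ T3 ∨ n ∈ T4 ∨ n ∈ T5 ∨ n ∈ T6 ∨ n ∈ T7 ∨ n ∈ T8) :
    (S.card : ℝ) ≤ T1.card + T2.card + T3.card + T4.card + T5.card + T6.card + T7.card + T8.card := by
  have h1 : S ⊆ T1 ∪ (T2 ∪ (T3 ∪ (T4 ∪ (T5 ∪ (T6 ∪ (T7 ∪ T8)))))) := by
    intro n hn
    simp only [Finset.mem_union]
    exact h n hn
  have h2 := Finset.card_le_card h1
  have a1 := Finset.card_union_le T1 (T2 ∪ (T3 ∪ (T4 ∪ (T5 ∪ (T6 ∪ (T7 ∪ T8))))))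
  have a2 := Finset.card_union_le T2 (T3 ∪ (T4 ∪ (T5 ∪ (T6 ∪ (T7 ∪ T8)))))
  have a3 := Finset.card_union_le T3 (T4 ∪ (T5 ∪ (T6 ∪ (T7 ∪ T8))))
  have a4 := Finset.card_union_le T4 (T5 ∪ (T6 ∪ (T7 ∪ T8)))
  have a5 := Finset.card_union_le T5 (T6 ∪ (T7 ∪ T8))
  have a6 := Finset.card_union_le T6 (T7 ∪ T8)
  have a7 := Finset.card_union_le T7 T8
  have : S.card ≤ T1.card + T2.card + T3.card + T4.card + T5.card + T6.card + T7.card + T8.card := by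
    omega
  exact_mod_cast this

/-- the smooth exceptional sets -/
lemma smooth_exp {C7 C2 C6 z Z Λ δ u : ℝ} {a : ℕ} (hC7 : 1 ≤ C7)
    (hC6 : C7 * Real.exp (-C6) ≤ 1 / (128 * C2)) (hz : 1 ≤ z) (hzZ : z ≤ Z) (hΛ : 1 ≤ Λ)
    (hu : 0 < u) (h : u * (2 * Z ^ a + C6) * (8 * Λ) ≤ δ) (D X : ℝ) (hDX : 0 ≤ D * X) :
    C7 * (D * X) * Real.exp (-(δ / (8 * Λ) / u)) ≤
      D * X * Real.exp (-(z ^ a)) * (1 / (128 * C2)) := by
  have h1 : 2 * Z ^ a + C6 ≤ δ / (8 * Λ) / u := by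
    rw [le_div_iff₀ hu, le_div_iff₀ (by positivity)]
    linarith
  have h2 : z ^ a ≤ Z ^ a := pow_le_pow_left₀ (by linarith) hzZ a
  have h3 : 0 ≤ z ^ a := pow_nonneg (by linarith) a
  have h4 : Real.exp (-(δ / (8 * Λ) / u)) ≤ Real.exp (-(z ^ a)) * Real.exp (-C6) := by
    rw [← Real.exp_add]
    apply Real.exp_le_exp.2
    linarith
  have h5 := Real.exp_pos (-(z ^ a))
  calc C7 * (D * X) * Real.exp (-(δ / (8 * Λ) / u))
      ≤ C7 * (D * X) * (Real.exp (-(z ^ a)) * Real.exp (-C6)) :=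
        mul_le_mul_of_nonneg_left h4 (by positivity)
    _ = D * X * Real.exp (-(z ^ a)) * (C7 * Real.exp (-C6)) := by ring
    _ ≤ _ := mul_le_mul_of_nonneg_left hC6 (by positivity)

end Aux

theorem perAdm (hSm : Smooth) (hSq : Squares) (hA : TypeA) (hB1 : TypeB1) (hB2a : TypeB2a)
    (hB2b : TypeB2b) (hC : TypeC) (hCase : CaseAn) : PerAdm := by
  classical
  intro C1 C2 hC1 hC2
  obtain ⟨C7, hC7, hSm⟩ := hSm
  -- constants
  obtain ⟨a, ha2, haC⟩ : ∃ a : ℕ, 2 ≤ a ∧ (140 : ℝ) / a ≤ 1 / (16 * C2) := by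
    refine ⟨⌈2240 * C2⌉₊ + 2, by omega, ?_⟩
    have h1 := Nat.le_ceil (2240 * C2)
    have h2 : (2240 : ℝ) * C2 ≤ ((⌈2240 * C2⌉₊ + 2 : ℕ) : ℝ) := by push_cast; linarith
    have h3 : (0 : ℝ) < ((⌈2240 * C2⌉₊ + 2 : ℕ) : ℝ) := by linarith
    rw [div_le_div_iff₀ h3 (by positivity)]
    linarith
  obtain ⟨C0, hC0, hC01⟩ : ∃ C0 : ℝ, 1 ≤ C0 ∧ C1 ≤ C0 * Real.exp (-1) := by
    refine ⟨C1 * Real.exp 1, ?_, ?_⟩
    · have : (1 : ℝ) ≤ Real.exp 1 := Real.one_le_exp (by norm_num)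
      nlinarith
    · rw [mul_assoc, ← Real.exp_add]; norm_num
  obtain ⟨ι, hι⟩ : ∃ ι : ℝ, ι = 1 / (a * 2 ^ (a + 3)) := ⟨_, rfl⟩
  obtain ⟨ρ, hρ, hρK⟩ := Aux.exists_rho a ha2 (64 * C2 * (C0 * 2149 * 2 ^ (a + 2))) (by
    have h1 : (1 : ℝ) ≤ 2 ^ (a + 2) := one_le_pow₀ (by norm_num)
    have h2 : (1 : ℝ) ≤ C0 * 2149 * 2 ^ (a + 2) := by
      have : (1 : ℝ) ≤ C0 * 2149 := by linarith
      nlinarith
    nlinarith)
  obtain ⟨C6, hC61, hC6⟩ : ∃ C6 : ℝ, 1 ≤ C6 ∧ C7 * Real.exp (-C6) ≤ 1 / (128 * C2) := by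
    have hpos : (1 : ℝ) ≤ 128 * C7 * C2 := by nlinarith
    refine ⟨Real.log (128 * C7 * C2) + 1, ?_, ?_⟩
    · have := Real.log_nonneg hpos; linarith
    · have h1 : Real.exp (-(Real.log (128 * C7 * C2) + 1)) ≤ (128 * C7 * C2)⁻¹ := by
        have h2 : Real.exp (-(Real.log (128 * C7 * C2) + 1)) ≤
            Real.exp (-(Real.log (128 * C7 * C2))) := Real.exp_le_exp.2 (by linarith)
        rwa [Real.exp_neg (Real.log _), Real.exp_log (by linarith)] at h2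
      have h3 := mul_le_mul_of_nonneg_left h1 (show 0 ≤ C7 by linarith)
      have h4 : C7 * (128 * C7 * C2)⁻¹ = 1 / (128 * C2) := by
        field_simp
      linarith
  have haR : (2 : ℝ) ≤ a := by exact_mod_cast ha2
  have hcst : Cst a C0 ρ ι := by
    refine ⟨ha2, hC0, hρ, by rw [hι]; positivity, ?_⟩
    rw [hι]
    apply one_div_le_one_div_of_le (by norm_num)
    have h1 : (2 : ℝ) ^ 5 ≤ 2 ^ (a + 3) := pow_le_pow_right₀ (by norm_num) (by omega)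
    nlinarith
  refine ⟨a, C0, ρ, ι, C6, hcst, hC61, hC01, ?_⟩
  intro A A' C
  obtain ⟨X1, hX1⟩ := hSm A'
  obtain ⟨X4, hX4⟩ := hA a C0 ρ ι hcst A A' C
  obtain ⟨X5, hX5⟩ := hB1 a C0 ρ ι hcst A A' C
  obtain ⟨X6, hX6⟩ := hB2a a C0 ρ ι hcst A A' C
  obtain ⟨X7, hX7⟩ := hB2b a C0 ρ ι hcst A A' C
  obtain ⟨X8, hX8⟩ := hC a C0 ρ ι hcst A A' C
  obtain ⟨X9, hX9⟩ := Aux.exists_large A'
  refine ⟨X1 + X4 + X5 + X6 + X7 + X8 + X9 + 2, ?_⟩
  intro x M1 N X D uB u1 G b Λ G1 Z δ z S hx hG hzZ hT hSN hS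
  obtain ⟨hlx, hll, hllA⟩ := hX9 x (by omega)
  -- basic facts
  have hx2 : 2 ≤ x := by omega
  have hxR : (2 : ℝ) ≤ x := by exact_mod_cast hx2
  have hx0 : (0 : ℝ) < x := by linarith
  have hx1 : (1 : ℝ) < x := by linarith
  have hll0 : 0 < ll x := by linarith
  have hllA0 : 0 < (ll x) ^ A' := pow_pos hll0 _
  have huB0 : 0 < uB := lt_of_lt_of_le (by positivity) hT.huB
  have hu10 : 0 < u1 := lt_of_lt_of_le huB0 hG.uBu1
  have hz0 : (0 : ℝ) < z := by linarith [hT.hz]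
  have hXpos : 0 < X := lt_of_lt_of_le (by positivity) hT.leX
  have hDX : 0 ≤ D * X := mul_nonneg hT.D0 hXpos.le
  have hδ0 := hT.hδ
  have hza1 : 1 ≤ z ^ a := one_le_pow₀ hT.hz
  have hZa : 1 ≤ Z ^ a := one_le_pow₀ hG.hZ
  have hδ100 : δ ≤ 1 / 200 := by
    refine hT.hδ'.trans ?_
    apply one_div_le_one_div_of_le (by norm_num)
    have h1 : (1 : ℝ) ≤ (4 * z) ^ a := one_le_pow₀ (by linarith [hT.hz])
    exact Aux.arith1 haR h1
  have hΛ := hG.hΛ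
  have hG1 := hG.hG1
  have huη : uB ≤ δ / (8 * Λ) := by
    rw [le_div_iff₀ (by positivity)]
    refine le_trans ?_ hG.hB
    have h1 : (1 : ℝ) ≤ 2 * Z ^ a + C6 := by linarith
    have h2 : uB ≤ uB * (2 * Z ^ a + C6) := le_mul_of_one_le_right huB0.le h1
    exact mul_le_mul_of_nonneg_right h2 (by positivity)
  have huη1 : u1 ≤ δ / (8 * G1) := by
    rw [le_div_iff₀ (by positivity)]
    refine le_trans ?_ hG.h1
    have h1 : (1 : ℝ) ≤ 2 * Z ^ a + C6 := by linarith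
    have h2 : u1 ≤ u1 * (2 * Z ^ a + C6) := le_mul_of_one_le_right hu10.le h1
    exact mul_le_mul_of_nonneg_right h2 (by positivity)
  have hη : δ / (8 * Λ) ≤ 1 / 20 := by
    rw [div_le_iff₀ (by positivity)]; linarith
  have hη1 : δ / (8 * G1) ≤ 1 / 20 := by
    rw [div_le_iff₀ (by positivity)]; linarith
  have hN1 : ∀ n ∈ N, 1 ≤ n := by
    intro n hn
    have h1 := (hT.adm.rng n hn).1
    have h2 : (0 : ℝ) < n := lt_trans (by positivity) h1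
    exact_mod_cast h2
  have hdivs : ∀ (d : ℕ) (S : Finset ℕ), 1 ≤ d → (d : ℝ) ≤ (x : ℝ) ^ ((9 : ℝ) / 10) → S ⊆ N →
      (∀ n ∈ S, d ∣ n) → (S.card : ℝ) ≤ D * X / d.totient := hT.adm.divs
  -- the exceptional sets
  have h1 := hX1 x N (D * X) uB (δ / (8 * Λ))
    (S.filter (fun n => δ / (8 * Λ) * Real.log x < wlow ((x : ℝ) ^ uB) n)) (by omega) hDX hN1 hdivs
    hT.huB hT.huB' huη hη ((Finset.filter_subset _ _).trans hSN)
    (fun n hn => (Finset.mem_filter.1 hn).2)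
  have h2 := hX1 x N (D * X) u1 (δ / (8 * G1))
    (S.filter (fun n => δ / (8 * G1) * Real.log x < wlow ((x : ℝ) ^ u1) n)) (by omega) hDX hN1 hdivs
    (hT.huB.trans hG.uBu1) hG.u1' huη1 hη1 ((Finset.filter_subset _ _).trans hSN)
    (fun n hn => (Finset.mem_filter.1 hn).2)
  have h1' := h1.trans (Aux.smooth_exp hC7 hC6 hT.hz hzZ hΛ huB0 hG.hB D X hDX)
  have h2' := h2.trans (Aux.smooth_exp hC7 hC6 hT.hz hzZ hG1 hu10 hG.h1 D X hDX)
  have hw2 : (2 : ℝ) ≤ (x : ℝ) ^ uB := by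
    have h3 : (2 : ℝ) ≤ Real.exp 1 := by linarith [Real.add_one_le_exp (1 : ℝ)]
    exact h3.trans (hT.M1ge.trans hT.uBM)
  have h3 := hSq X ((x : ℝ) ^ uB)
    (S.filter (fun n => ∃ l : ℕ, l.Prime ∧ (x : ℝ) ^ uB ≤ l ∧ l ^ 2 ∣ n)) hw2 hXpos.le
    (fun n hn => ⟨hN1 n (hSN (Finset.mem_filter.1 hn).1),
      (hT.adm.rng n (hSN (Finset.mem_filter.1 hn).1)).2, (Finset.mem_filter.1 hn).2⟩)
  have h4 := hX4 x M1 N X D uB b z δ
    (S.filter (fun n => ∃ l : ℕ, l.Prime ∧ l ∣ n ∧ (x : ℝ) ^ uB ≤ l ∧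
      (l : ℝ) ≤ (x : ℝ) ^ ((1 : ℝ) / 2) ∧ 7 / 5 * z ≤ b l)) (by omega) hT
    ((Finset.filter_subset _ _).trans hSN) (fun n hn => (Finset.mem_filter.1 hn).2)
  have h5 := hX5 x M1 N X D uB b z δ
    (S.filter (fun n => ∃ l1 l2 : ℕ, l1.Prime ∧ l2.Prime ∧ l1 ≠ l2 ∧ l1 ∣ n ∧ l2 ∣ n ∧
      (x : ℝ) ^ uB ≤ l1 ∧ (x : ℝ) ^ uB ≤ l2 ∧ ((l1 : ℝ) * l2) ≤ (x : ℝ) ^ ((9 : ℝ) / 10) ∧
      z - δ ≤ b l1 ∧ z / 2 ≤ b l2)) (by omega) hT
    ((Finset.filter_subset _ _).trans hSN) (fun n hn => (Finset.mem_filter.1 hn).2)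
  have h6 := hX6 x M1 N X D uB b z δ
    (S.filter (fun n => ∃ k l q : ℕ, l.Prime ∧ q.Prime ∧ n = l * k * q ∧ M1 < k ∧
      (x : ℝ) ^ uB ≤ l ∧ (l : ℝ) ≤ (x : ℝ) ^ ((1 : ℝ) / 2) ∧
      (x : ℝ) ^ ((9 : ℝ) / 10) < ((l : ℝ) * q) ∧
      ((z - δ ≤ b q ∧ z / 2 ≤ b l) ∨ (z / 2 ≤ b q ∧ z - δ ≤ b l)))) (by omega) hT
    ((Finset.filter_subset _ _).trans hSN) (fun n hn => (Finset.mem_filter.1 hn).2)
  have h7 := hX7 x M1 N X D uB b z δ
    (S.filter (fun n => ∃ k l q : ℕ, l.Prime ∧ q.Prime ∧ n = k * l * q ∧ k ≤ M1 ∧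
      (x : ℝ) ^ uB ≤ l ∧ (l : ℝ) ≤ (x : ℝ) ^ ((1 : ℝ) / 2) ∧
      ((z - δ ≤ b q ∧ z / 2 ≤ b l) ∨ (z / 2 ≤ b q ∧ z - δ ≤ b l)))) (by omega) hT
    ((Finset.filter_subset _ _).trans hSN) (fun n hn => (Finset.mem_filter.1 hn).2)
  have h8 := hX8 x M1 N X D uB b z δ
    (S.filter (fun n => ∃ m q : ℕ, q.Prime ∧ n = m * q ∧ M1 < m ∧ m * m ≤ x ∧
      z * (1 + (Real.log m / Real.log x) / 2) - 2 * δ ≤ b q)) (by omega) hT
    ((Finset.filter_subset _ _).trans hSN) (fun n hn => (Finset.mem_filter.1 hn).2)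
  -- the cover
  have hcov : ∀ n ∈ S,
      n ∈ S.filter (fun n => δ / (8 * Λ) * Real.log x < wlow ((x : ℝ) ^ uB) n) ∨
      n ∈ S.filter (fun n => δ / (8 * G1) * Real.log x < wlow ((x : ℝ) ^ u1) n) ∨
      n ∈ S.filter (fun n => ∃ l : ℕ, l.Prime ∧ (x : ℝ) ^ uB ≤ l ∧ l ^ 2 ∣ n) ∨
      n ∈ S.filter (fun n => ∃ l : ℕ, l.Prime ∧ l ∣ n ∧ (x : ℝ) ^ uB ≤ l ∧
        (l : ℝ) ≤ (x : ℝ) ^ ((1 : ℝ) / 2) ∧ 7 / 5 * z ≤ b l) ∨
      n ∈ S.filter (fun n => ∃ l1 l2 : ℕ, l1.Prime ∧ l2.Prime ∧ l1 ≠ l2 ∧ l1 ∣ n ∧ l2 ∣ n ∧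
        (x : ℝ) ^ uB ≤ l1 ∧ (x : ℝ) ^ uB ≤ l2 ∧ ((l1 : ℝ) * l2) ≤ (x : ℝ) ^ ((9 : ℝ) / 10) ∧
        z - δ ≤ b l1 ∧ z / 2 ≤ b l2) ∨
      n ∈ S.filter (fun n => ∃ k l q : ℕ, l.Prime ∧ q.Prime ∧ n = l * k * q ∧ M1 < k ∧
        (x : ℝ) ^ uB ≤ l ∧ (l : ℝ) ≤ (x : ℝ) ^ ((1 : ℝ) / 2) ∧
        (x : ℝ) ^ ((9 : ℝ) / 10) < ((l : ℝ) * q) ∧
        ((z - δ ≤ b q ∧ z / 2 ≤ b l) ∨ (z / 2 ≤ b q ∧ z - δ ≤ b l))) ∨
      n ∈ S.filter (fun n => ∃ k l q : ℕ, l.Prime ∧ q.Prime ∧ n = k * l * q ∧ k ≤ M1 ∧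
        (x : ℝ) ^ uB ≤ l ∧ (l : ℝ) ≤ (x : ℝ) ^ ((1 : ℝ) / 2) ∧
        ((z - δ ≤ b q ∧ z / 2 ≤ b l) ∨ (z / 2 ≤ b q ∧ z - δ ≤ b l))) ∨
      n ∈ S.filter (fun n => ∃ m q : ℕ, q.Prime ∧ n = m * q ∧ M1 < m ∧ m * m ≤ x ∧
        z * (1 + (Real.log m / Real.log x) / 2) - 2 * δ ≤ b q) := by
    intro n hn
    simp only [Finset.mem_filter]
    by_cases e1 : δ / (8 * Λ) * Real.log x < wlow ((x : ℝ) ^ uB) n
    · exact Or.inl ⟨hn, e1⟩
    right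
    by_cases e2 : δ / (8 * G1) * Real.log x < wlow ((x : ℝ) ^ u1) n
    · exact Or.inl ⟨hn, e2⟩
    right
    by_cases e3 : ∃ l : ℕ, l.Prime ∧ (x : ℝ) ^ uB ≤ l ∧ l ^ 2 ∣ n
    · exact Or.inl ⟨hn, e3⟩
    right
    obtain ⟨hp, hnx, hGn, hns⟩ := hS n hn
    have hnN := hT.adm.rng n (hSN hn)
    have hnpos : 1 ≤ n := hN1 n (hSN hn)
    have hnR : (1 : ℝ) ≤ n := by exact_mod_cast hnpos
    -- size of `n + 1`
    have hlogn : 9 / 10 * Real.log x ≤ Real.log ((n : ℝ) + 1) := by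
      have g1 : (x : ℝ) * Real.exp (-(ll x) ^ A') / 4 ≤ (n : ℝ) + 1 := by
        have := hT.leX
        linarith [hnN.1]
      have g2 := Real.log_le_log (by positivity) g1
      rw [Real.log_div (by positivity) (by norm_num), Real.log_mul hx0.ne' (Real.exp_pos _).ne',
        Real.log_exp] at g2
      have g3 : Real.log 4 ≤ 3 := by
        have := Real.log_le_sub_one_of_pos (show (0 : ℝ) < 4 by norm_num)
        linarith
      have g4 : -(ll x) ^ A' = -((ll x) ^ A') := rfl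
      linarith
    have hn5 : 5 ≤ n + 1 := by
      have g1 : (18 : ℝ) ≤ Real.log ((n : ℝ) + 1) := by linarith
      have g2 := Real.log_le_sub_one_of_pos (show (0 : ℝ) < (n : ℝ) + 1 by linarith)
      have g3 : (5 : ℝ) ≤ (n : ℝ) + 1 := by linarith
      exact_mod_cast g3
    have hΛ0 : (0 : ℝ) ≤ Λ := by linarith
    have hcase := hCase x n G b Λ G1 uB u1 (δ / (8 * Λ)) (δ / (8 * G1)) z δ hp hn5 hnx hlogn hG.avg
      hG.le hΛ0 (by linarith) hT.tail.nonneg hG.b1 hG.bB hT.hz hδ0 (by linarith) hGn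
      (not_lt.1 e1) (not_lt.1 e2)
      (by rw [show Λ * (δ / (8 * Λ)) = δ / 8 by field_simp])
      (by rw [show G1 * (δ / (8 * G1)) = δ / 8 by field_simp])
      hG.uBu1
      (fun l hl1 hl2 hl3 => e3 ⟨l, hl1, hl2, hl3⟩)
    rcases hcase with ⟨l, hl⟩ | ⟨l1, l2, hl1, hl2, hne, hd1, hd2, hu1l, hu2l, hb1, hb2⟩ |
      ⟨m, q, hq, hnmq, hmm, hbq⟩
    · exact Or.inl ⟨hn, l, hl⟩
    · right
      by_cases e4 : ((l1 : ℝ) * l2) ≤ (x : ℝ) ^ ((9 : ℝ) / 10)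
      · exact Or.inl ⟨hn, l1, l2, hl1, hl2, hne, hd1, hd2, hu1l, hu2l, e4, hb1, hb2⟩
      right
      rw [not_le] at e4
      have hcop : Nat.Coprime l1 l2 := (Nat.coprime_primes hl1 hl2).2 hne
      obtain ⟨k, hk⟩ := hcop.mul_dvd_of_dvd_of_dvd hd1 hd2
      have hk0 : 0 < k := by
        rcases Nat.eq_zero_or_pos k with h | h
        · rw [h] at hk; omega
        · exact h
      have hprod : l1 * l2 ≤ x := by
        have : l1 * l2 ≤ n := by rw [hk]; exact Nat.le_mul_of_pos_right _ hk0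
        omega
      -- the small one is at most `x ^ (1/2)`
      have hsq : ∀ l q : ℕ, l ≤ q → l * q ≤ x → (l : ℝ) ≤ (x : ℝ) ^ ((1 : ℝ) / 2) := by
        intro l q hlq hlqx
        rw [← Real.sqrt_eq_rpow]
        apply Real.le_sqrt_of_sq_le
        have : l * l ≤ x := (Nat.mul_le_mul_left l hlq).trans hlqx
        have h' : ((l * l : ℕ) : ℝ) ≤ x := by exact_mod_cast this
        push_cast at h'
        rw [sq]; exact h'
      rcases le_total l1 l2 with hle | hle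
      · -- `l = l1`, `q = l2`
        have hs := hsq l1 l2 hle hprod
        rcases lt_or_ge M1 k with hkM | hkM
        · exact Or.inl ⟨hn, k, l1, l2, hl1, hl2, by rw [hk]; ring, hkM, hu1l, hs, e4,
            Or.inr ⟨hb2, hb1⟩⟩
        · exact Or.inr (Or.inl ⟨hn, k, l1, l2, hl1, hl2, by rw [hk]; ring, hkM, hu1l, hs,
            Or.inr ⟨hb2, hb1⟩⟩)
      · -- `l = l2`, `q = l1`
        have hs := hsq l2 l1 hle (by rw [Nat.mul_comm]; exact hprod)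
        rcases lt_or_ge M1 k with hkM | hkM
        · exact Or.inl ⟨hn, k, l2, l1, hl2, hl1, by rw [hk]; ring, hkM, hu2l, hs,
            by rw [mul_comm]; exact e4, Or.inl ⟨hb1, hb2⟩⟩
        · exact Or.inr (Or.inl ⟨hn, k, l2, l1, hl2, hl1, by rw [hk]; ring, hkM, hu2l, hs,
            Or.inl ⟨hb1, hb2⟩⟩)
    · right; right; right; right
      exact ⟨hn, m, q, hq, hnmq, hns m q hq hnmq, hmm, hbq⟩
  have htot := Aux.card8 hcov
  -- numerical summation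
  set E := Real.exp (-(z ^ a)) with hE
  set R := Real.exp (-((ρ / 2) ^ a)) with hR
  have hE0 : 0 < E := Real.exp_pos _
  have hR0 : 0 < R := Real.exp_pos _
  set W := D * X * C0 * E with hW
  have hW0 : 0 ≤ W := by positivity
  have hez := Aux.ez_bound a ρ ι δ z ha2 hι hT.hz hδ0 hT.hδ'
  have hez0 : 0 < Ez a ρ ι δ z := Real.exp_pos _
  have hez1 : Ez a ρ ι δ z ≤ (1 + z ^ a) * Ez a ρ ι δ z :=
    le_mul_of_one_le_left hez0.le (by linarith only [hza1])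
  have hC2' : (0 : ℝ) < C2 := by linarith
  have hKR : C0 * 2149 * 2 ^ (a + 2) * R ≤ 1 / (64 * C2) := by
    rw [le_div_iff₀ (by positivity)]
    linarith
  have t12 : D * X * E * (1 / (128 * C2)) ≤ W * (1 / (128 * C2)) := by
    apply mul_le_mul_of_nonneg_right _ (by positivity)
    have : D * X * E * 1 ≤ D * X * E * C0 := mul_le_mul_of_nonneg_left hC0 (by positivity)
    rw [hW]; linarith
  have t4 : 32 * D * X * C0 * Real.exp (-((13 / 10 * z) ^ a) - (ρ / 2) ^ a) ≤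
      W * (1 / (64 * C2)) := by
    have g1 : Real.exp (-((13 / 10 * z) ^ a) - (ρ / 2) ^ a) ≤ E * R := by
      rw [hE, hR, ← Real.exp_add]
      apply Real.exp_le_exp.2
      have : z ^ a ≤ (13 / 10 * z) ^ a := pow_le_pow_left₀ hz0.le (by linarith) a
      linarith
    have g2 : 32 * R ≤ 1 / (64 * C2) := by
      refine le_trans ?_ hKR
      have g3 : (1 : ℝ) ≤ 2 ^ (a + 2) := one_le_pow₀ (by norm_num)
      have g4 : (32 : ℝ) ≤ C0 * 2149 * 2 ^ (a + 2) := Aux.arith2 hC0 g3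
      exact mul_le_mul_of_nonneg_right g4 hR0.le
    calc 32 * D * X * C0 * Real.exp (-((13 / 10 * z) ^ a) - (ρ / 2) ^ a)
        = (D * X * C0 * 32) * Real.exp (-((13 / 10 * z) ^ a) - (ρ / 2) ^ a) := by ring
      _ ≤ (D * X * C0 * 32) * (E * R) := mul_le_mul_of_nonneg_left g1 (by positivity)
      _ = W * (32 * R) := by rw [hW]; ring
      _ ≤ _ := mul_le_mul_of_nonneg_left g2 hW0
  have t567 : 2048 * D * X * C0 ^ 2 * Ez a ρ ι δ z +
      100 * D * X * C0 ^ 2 * (1 + z ^ a) * Ez a ρ ι δ z + D * X * C0 ^ 2 * Ez a ρ ι δ z ≤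
      W * (1 / (64 * C2)) := by
    have g1 : 2048 * D * X * C0 ^ 2 * Ez a ρ ι δ z +
        100 * D * X * C0 ^ 2 * (1 + z ^ a) * Ez a ρ ι δ z + D * X * C0 ^ 2 * Ez a ρ ι δ z ≤
        D * X * C0 ^ 2 * 2149 * ((1 + z ^ a) * Ez a ρ ι δ z) := by
      have g2 := mul_le_mul_of_nonneg_left hez1 (show 0 ≤ D * X * C0 ^ 2 * 2049 by positivity)
      linarith
    have g3 := mul_le_mul_of_nonneg_left hez (show 0 ≤ D * X * C0 ^ 2 * 2149 by positivity)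
    calc _ ≤ D * X * C0 ^ 2 * 2149 * ((1 + z ^ a) * Ez a ρ ι δ z) := g1
      _ ≤ D * X * C0 ^ 2 * 2149 * (2 ^ (a + 2) * E * R) := g3
      _ = W * (C0 * 2149 * 2 ^ (a + 2) * R) := by rw [hW]; ring
      _ ≤ _ := mul_le_mul_of_nonneg_left hKR hW0
  have t8 : D * X * C0 * E * (140 / a) ≤ W * (1 / (16 * C2)) :=
    mul_le_mul_of_nonneg_left haC hW0
  -- residual terms
  have tres : 2 * X / (x : ℝ) ^ uB + X * (x : ℝ) ^ (-(uB / 2)) ≤ X * (x : ℝ) ^ (-(uB / 4)) := by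
    obtain ⟨t, ht⟩ : ∃ t : ℝ, t = (x : ℝ) ^ (-(uB / 4)) := ⟨_, rfl⟩
    have ht0 : 0 < t := by rw [ht]; positivity
    have ht2 : (x : ℝ) ^ (-(uB / 2)) = t ^ 2 := by
      rw [ht, ← Real.rpow_natCast, ← Real.rpow_mul hx0.le]; congr 1; push_cast; ring
    have ht4 : ((x : ℝ) ^ uB)⁻¹ = t ^ 4 := by
      rw [ht, ← Real.rpow_natCast, ← Real.rpow_mul hx0.le, ← Real.rpow_neg hx0.le]
      congr 1; push_cast; ring
    have hthalf : t ≤ 1 / 2 := by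
      have g1 : Real.log t ≤ -1 := by
        rw [ht, Real.log_rpow hx0]
        have g2 : 4 ≤ uB * Real.log x := by
          have g3 : 1 / (ll x) ^ A' * Real.log x ≤ uB * Real.log x :=
            mul_le_mul_of_nonneg_right hT.huB (by linarith)
          have g4 : 4 ≤ 1 / (ll x) ^ A' * Real.log x := by
            rw [one_div, inv_mul_eq_div, le_div_iff₀ hllA0]
            linarith
          linarith
        linarith
      have g5 : t = Real.exp (Real.log t) := (Real.exp_log ht0).symm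
      rw [g5]
      refine (Real.exp_le_exp.2 g1).trans ?_
      rw [Real.exp_neg, inv_eq_one_div]
      apply one_div_le_one_div_of_le (by norm_num)
      linarith [Real.add_one_le_exp (1 : ℝ)]
    rw [div_eq_mul_inv, ht4, ht2, ← ht]
    have g6 : 2 * t ^ 4 + t ^ 2 ≤ t := Aux.arith3 ht0 hthalf
    have := mul_le_mul_of_nonneg_left g6 hXpos.le
    linarith only [this]
  have hfin : W * (1 / (128 * C2)) + W * (1 / (128 * C2)) + W * (1 / (64 * C2)) +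
      W * (1 / (64 * C2)) + W * (1 / (16 * C2)) ≤ W / (4 * C2) := by
    have g1 : W * (1 / (128 * C2)) + W * (1 / (128 * C2)) + W * (1 / (64 * C2)) +
      W * (1 / (64 * C2)) + W * (1 / (16 * C2)) = W / (4 * C2) * (7 / 16) := by
      field_simp; ring
    rw [g1]
    have g2 : 0 ≤ W / (4 * C2) := by positivity
    linarith
  linarith only [h1', h2', h3, h4, h5, h6, h7, h8, htot, t12, t4, t567, t8, tres, hfin]

end Pool.Agent.Helper28.TOT
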